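import Pool.Agent.H63.FG2

set_option autoImplicit false

namespace Pool.Agent.Results.MP_4c145a_lc.Strict

open Pool.Agent.H63.FG

/-- Some LF-E0L grammar `G` has the property that no LF-EP0L grammar generates `L(G) \ {ε}`. -/
theorem result : ∃ (N : Type) (_ : Fintype N) (G : LFG (Fin 3) N),
    ∀ (N' : Type) [Fintype N'] (G' : LFG (Fin 3) N'), G'.Propagating →
      G'.lang ≠ G.lang \ {[]} := lf_sep

end Pool.Agent.Results.MP_4c145a_lc.Strict
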